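import Pool.Agent.W973.SRR.Defs

set_option autoImplicit false

namespace Pool.Agent.W302.SRR

open Pool.Agent.W973.SRR Pool.Agent.NPC

theorem likB_iff (P : List (List ℕ)) (M : List (ℕ × ℕ)) (a b : ℕ) :
    likB P M a b = true ↔ Likes P M a b := by
  unfold likB Likes Matched
  rw [List.all_eq_true]
  constructor
  · intro h c hc
    rcases hc with hc | hc
    · have h1 := h _ hc
      rw [Bool.and_eq_true, Bool.or_eq_true, Bool.or_eq_true] at h1
      rcases h1.1 with h2 | h2
      · exact absurd rfl (of_decide_eq_true h2)
      · exact of_decide_eq_true h2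
    · have h1 := h _ hc
      rw [Bool.and_eq_true, Bool.or_eq_true, Bool.or_eq_true] at h1
      rcases h1.2 with h2 | h2
      · exact absurd rfl (of_decide_eq_true h2)
      · exact of_decide_eq_true h2
  · rintro h ⟨x, y⟩ hp
    rw [Bool.and_eq_true, Bool.or_eq_true, Bool.or_eq_true]
    refine ⟨?_, ?_⟩
    · by_cases hx : x = a
      · right
        subst hx
        exact decide_eq_true (h y (Or.inl hp))
      · left
        exact decide_eq_true hx
    · by_cases hy : y = a
      · right
        subst hy
        exact decide_eq_true (h x (Or.inr hp))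
      · left
        exact decide_eq_true hy

theorem stabb : S_STABB := by
  intro n P M
  unfold stabB Stable
  rw [List.all_eq_true]
  constructor
  · intro h a ha b hb hab hM
    have h1 := h a (List.mem_range.2 ha)
    rw [List.all_eq_true] at h1
    have h2 := h1 b (List.mem_range.2 hb)
    rw [Bool.or_eq_true, Bool.or_eq_true, Bool.or_eq_true] at h2
    rintro ⟨h3, h4⟩
    rcases h2 with ((h2 | h2) | h2) | h2
    · exact hab (of_decide_eq_true h2)
    · exact hM (Or.inl (of_decide_eq_true h2))
    · exact hM (Or.inr (of_decide_eq_true h2))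
    · rw [(likB_iff P M a b).2 h3, (likB_iff P M b a).2 h4] at h2
      simp at h2
  · intro h a ha
    rw [List.all_eq_true]
    intro b hb
    rw [List.mem_range] at ha hb
    rw [Bool.or_eq_true, Bool.or_eq_true, Bool.or_eq_true]
    by_cases hab : a = b
    · exact Or.inl (Or.inl (Or.inl (decide_eq_true hab)))
    by_cases h1 : (a, b) ∈ M
    · exact Or.inl (Or.inl (Or.inr (decide_eq_true h1)))
    by_cases h2 : (b, a) ∈ M
    · exact Or.inl (Or.inr (decide_eq_true h2))
    right
    have h3 := h a ha b hb hab (by
      rintro (h4 | h4)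
      · exact h1 h4
      · exact h2 h4)
    rw [← likB_iff, ← likB_iff] at h3
    cases h5 : likB P M a b
    · rfl
    · cases h6 : likB P M b a
      · rfl
      · exact absurd ⟨h5, h6⟩ h3

end Pool.Agent.W302.SRR
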